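import Pool.Agent.Helper8.SPV.Stmts2

/-! # The base field `k(t, w)` -/

set_option autoImplicit false

namespace Pool.Agent.Helper8.SPV

open IntermediateField (adjoin)
open Polynomial
open scoped IntermediateField.algebraAdjoinAdjoin

/-- the polynomial `Q` -/
noncomputable def BASE_Q {k : Type} [Field k] (b : Fin 10 → k) : k[X] :=
  ∑ j : Fin 10, C (b j) * X ^ (j : ℕ)

theorem BASE_Q_aeval {k K : Type} [Field k] [Field K] [Algebra k K] (b : Fin 10 → k) (t : K) :
    aeval t (BASE_Q b) = Qf b t := by
  unfold BASE_Q Qf
  simp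

theorem BASE_Q_coeff {k : Type} [Field k] (b : Fin 10 → k) : (BASE_Q b).coeff 9 = b 9 := by
  unfold BASE_Q
  rw [finsetSum_coeff, Finset.sum_eq_single (9 : Fin 10)]
  · simp [coeff_X_pow]
  · intro j _ hj
    rw [coeff_C_mul, coeff_X_pow, if_neg, mul_zero]
    intro h
    apply hj
    ext
    exact h.symm
  · intro h
    exact absurd (Finset.mem_univ _) h

theorem BASE_Q_deg {k : Type} [Field k] (b : Fin 10 → k) (hb : b 9 ≠ 0) :
    (BASE_Q b).natDegree = 9 := by
  apply le_antisymm
  · unfold BASE_Q
    apply natDegree_sum_le_of_forall_le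
    intro j _
    refine le_trans (natDegree_C_mul_X_pow_le _ _) ?_
    omega
  · apply le_natDegree_of_ne_zero
    rwa [BASE_Q_coeff]

theorem st_BASE (hDE : ST_DEREXT) : ST_BASE := by
  intro k L _ _ _ _ _ b t w x y h hb
  have htr : Transcendental k t := by
    have := h.indep.transcendental 0
    simpa using this
  have hmt : t ∈ adjoin k ({t, w} : Set L) := IntermediateField.subset_adjoin _ _ (by simp)
  have hmw : w ∈ adjoin k ({t, w} : Set L) := IntermediateField.subset_adjoin _ _ (by simp)
  set F := adjoin k ({t, w} : Set L) with hF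
  let tF : F := ⟨t, hmt⟩
  let wF : F := ⟨w, hmw⟩
  have htF : Transcendental k tF := by
    intro h1
    apply htr
    exact h1.algebraMap (A := L)
  have heq : wF ^ 2 = tF ^ 3 + 1 := Subtype.ext h.pt.e1
  have hinj : ∀ p : k[X], aeval tF p = 0 → p = 0 := fun p hp =>
    (transcendental_iff.mp htF) p hp
  have hgF : adjoin k ({tF, wF} : Set F) = ⊤ := by
    have h1 : IntermediateField.lift (adjoin k ({tF, wF} : Set F)) = F := by
      rw [IntermediateField.lift_adjoin, Set.image_pair]
    have h2 : IntermediateField.lift (⊤ : IntermediateField k F) = F :=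
      IntermediateField.lift_top k F
    exact IntermediateField.lift_injective F (h1.trans h2.symm)
  have hint : IsIntegral (adjoin k ({tF} : Set F)) wF := by
    have hm : tF ∈ adjoin k ({tF} : Set F) := IntermediateField.mem_adjoin_simple_self k tF
    refine ⟨X ^ 2 - C ((⟨tF, hm⟩ : adjoin k ({tF} : Set F)) ^ 3 + 1),
      monic_X_pow_sub_C _ two_ne_zero, ?_⟩
    simp only [eval₂_sub, eval₂_pow, eval₂_X, eval₂_C]
    rw [heq, map_add, map_pow, map_one]
    exact sub_self _
  have hfin : FiniteDimensional (adjoin k ({tF} : Set F)) F := by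
    have h1 : adjoin (adjoin k ({tF} : Set F)) ({wF} : Set F) = ⊤ := by
      have h2 := IntermediateField.adjoin_adjoin_left k ({tF} : Set F) ({wF} : Set F)
      have h3 : ({tF} : Set F) ∪ {wF} = {tF, wF} := rfl
      rw [h3, hgF] at h2
      apply IntermediateField.restrictScalars_injective k
      rw [h2]
      rfl
    have h2 : FiniteDimensional (adjoin k ({tF} : Set F))
        (adjoin (adjoin k ({tF} : Set F)) ({wF} : Set F)) :=
      IntermediateField.adjoin.finiteDimensional hint
    rw [h1] at h2
    exact Module.Finite.equiv (IntermediateField.topEquiv (F := adjoin k ({tF} : Set F))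
      (E := F)).toLinearEquiv
  have hqc : ((aeval tF (BASE_Q b) : F) : L) = Qf b t := by
    rw [← BASE_Q_aeval b t]
    exact (aeval_algebraMap_apply L tF (BASE_Q b)).symm
  refine ⟨⟨tF, htF, hfin⟩, tF, wF, aeval tF (BASE_Q b), rfl, rfl, ?_, ?_, ?_⟩
  · exact hqc
  · refine ⟨?_, ?_, ?_, ?_⟩
    · rw [h.pt.e2, ← hqc]
      rfl
    · intro h1
      have h2 : IsAlgebraic (Algebra.adjoin k ({t, w} : Set L)) x :=
        (IsFractionRing.isAlgebraic_iff (Algebra.adjoin k ({t, w} : Set L))
          (adjoin k ({t, w} : Set L)) L).mpr h1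
      have h3 : IsAlgebraic (Algebra.adjoin k ({t} : Set L)) x := by
        apply IsAlgebraic.adjoin_of_forall_isAlgebraic _ h2
        intro z hz
        have hzw : z = w := by
          rcases hz.1 with h4 | h4
          · exact absurd h4 hz.2
          · exact h4
        rw [hzw]
        have hm : t ∈ Algebra.adjoin k ({t} : Set L) := Algebra.self_mem_adjoin_singleton k t
        refine ⟨X ^ 2 - C ((⟨t, hm⟩ : Algebra.adjoin k ({t} : Set L)) ^ 3 + 1),
          (monic_X_pow_sub_C _ two_ne_zero).ne_zero, ?_⟩
        simp only [aeval_sub, aeval_X_pow, aeval_C]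
        rw [h.pt.e1, map_add, map_pow, map_one]
        exact sub_self _
      have h4 := h.indep.transcendental_adjoin (s := {0}) (i := 1) (by simp)
      rw [Set.image_singleton] at h4
      exact h4 h3
    · have h2 := IntermediateField.adjoin_adjoin_left k ({t, w} : Set L) ({x, y} : Set L)
      have h3 : ({t, w} : Set L) ∪ {x, y} = {t, w, x, y} := by
        ext z
        simp only [Set.mem_union, Set.mem_insert_iff, Set.mem_singleton_iff]
        tauto
      rw [h3, h.gen] at h2
      apply IntermediateField.restrictScalars_injective k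
      rw [h2]
      rfl
    · intro h1
      have h2 : aeval tF (C 4 + C 27 * (BASE_Q b) ^ 2) = 0 := by
        rw [← h1]
        simp only [map_add, map_mul, map_pow, map_ofNat]
      have h3 := hinj _ h2
      have h4 : (C 27 * (BASE_Q b) ^ 2).natDegree = 18 := by
        rw [natDegree_C_mul (by norm_num), natDegree_pow, BASE_Q_deg b hb]
      have h5 : C 27 * (BASE_Q b) ^ 2 = C (-4) := by
        rw [C_neg]
        linear_combination h3
      rw [h5, natDegree_C] at h4
      omega
  · obtain ⟨-, h1⟩ := hDE k F 0
    obtain ⟨D', h2, h3⟩ := h1 tF htF (2 * wF)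
    let δ0 : Derivation k F F :=
      { toFun := D'
        map_add' := map_add D'
        map_smul' := by
          intro c f
          rw [Algebra.smul_def, Derivation.leibniz, h2]
          simp [Algebra.smul_def]
        map_one_eq_zero' := Derivation.map_one_eq_zero D'
        leibniz' := fun a b => Derivation.leibniz D' a b }
    have hδ : ∀ f, δ0 f = D' f := fun f => rfl
    have hw0 : wF ≠ 0 := by
      intro hw
      rw [hw, zero_pow two_ne_zero] at heq
      have h4 : aeval tF (X ^ 3 + 1 : k[X]) = 0 := by simp [← heq]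
      have h5 := hinj _ h4
      have h6 : (X ^ 3 + 1 : k[X]).natDegree = 3 := by compute_degree!
      rw [h5, natDegree_zero] at h6
      omega
    refine ⟨δ0, h3, ?_, ?_⟩
    · have e1 := congrArg δ0 heq
      rw [Derivation.leibniz_pow, map_add, Derivation.leibniz_pow, Derivation.map_one_eq_zero,
        hδ tF, h3] at e1
      simp only [smul_eq_mul, nsmul_eq_mul] at e1
      push_cast at e1
      have h4 : (2 * wF) * (δ0 wF - 3 * tF ^ 2) = 0 := by linear_combination e1
      rcases mul_eq_zero.mp h4 with h5 | h5
      · exact absurd h5 (mul_ne_zero two_ne_zero hw0)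
      · exact sub_eq_zero.mp h5
    · rw [Derivation.map_aeval, hδ, h3, smul_eq_mul]
      apply mul_ne_zero _ (mul_ne_zero two_ne_zero hw0)
      intro h4
      have h5 := hinj _ h4
      have h6 : (derivative (BASE_Q b)).coeff 8 = b 9 * 9 := by
        rw [coeff_derivative, BASE_Q_coeff]
        norm_num
      rw [h5, coeff_zero] at h6
      exact mul_ne_zero hb (by norm_num) h6.symm

end Pool.Agent.Helper8.SPV
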