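import Pool.Agent.Helper8.SPV.Stmts2

/-! # Derivations of an elliptic function field preserve the valuation rings containing `x` -/

set_option autoImplicit false

namespace Pool.Agent.Helper8.SPV

open IntermediateField (adjoin)

section loc

variable {L : Type} [Field L] (R : ValuationSubring L)

/-- `f` is in the maximal ideal -/
def ELB1_M (f : L) : Prop := f = 0 ∨ f⁻¹ ∉ R

variable {R}

theorem ELB1_M_mul {f g : L} (hf : ELB1_M R f) (hg : g ∈ R) : ELB1_M R (g * f) := by
  by_cases h : g * f = 0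
  · exact Or.inl h
  · have hg0 : g ≠ 0 := left_ne_zero_of_mul h
    have hf0 : f ≠ 0 := right_ne_zero_of_mul h
    refine Or.inr fun h1 => ?_
    rcases hf with hf | hf
    · exact hf0 hf
    · apply hf
      have h2 : f⁻¹ = g * (g * f)⁻¹ := by
        field_simp
      rw [h2]
      exact R.mul_mem _ _ hg h1

theorem ELB1_nM {f : L} (hf : ¬ ELB1_M R f) : f ≠ 0 ∧ f⁻¹ ∈ R := by
  unfold ELB1_M at hf
  push Not at hf
  exact hf

theorem ELB1_nM_mul {f g : L} (hf : ¬ ELB1_M R f) (hg : ¬ ELB1_M R g) : ¬ ELB1_M R (f * g) := by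
  obtain ⟨hf0, hf⟩ := ELB1_nM hf
  obtain ⟨hg0, hg⟩ := ELB1_nM hg
  rintro (h | h)
  · exact mul_ne_zero hf0 hg0 h
  · apply h
    rw [mul_inv]
    exact R.mul_mem _ _ hf hg

theorem ELB1_M_iff (f : L) (hf : f ∈ R) :
    ELB1_M R f ↔ (⟨f, hf⟩ : R) ∈ IsLocalRing.maximalIdeal R := by
  rw [IsLocalRing.mem_maximalIdeal, mem_nonunits_iff]
  constructor
  · rintro h hu
    obtain ⟨⟨g, hg⟩, h2⟩ := isUnit_iff_exists_inv.mp hu
    have h3 : f * g = 1 := congrArg Subtype.val h2
    have hf0 : f ≠ 0 := left_ne_zero_of_mul (by rw [h3]; exact one_ne_zero)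
    rcases h with h | h
    · exact hf0 h
    · apply h
      rw [inv_eq_of_mul_eq_one_right h3]
      exact hg
  · intro h
    by_contra hM
    obtain ⟨hf0, hfi⟩ := ELB1_nM hM
    apply h
    rw [isUnit_iff_exists_inv]
    exact ⟨⟨f⁻¹, hfi⟩, Subtype.ext (mul_inv_cancel₀ hf0)⟩

theorem ELB1_M_add {f g : L} (hf : f ∈ R) (hg : g ∈ R) (h1 : ELB1_M R f) (h2 : ELB1_M R g) :
    ELB1_M R (f + g) := by
  rw [ELB1_M_iff _ hf] at h1
  rw [ELB1_M_iff _ hg] at h2
  rw [ELB1_M_iff _ (R.add_mem _ _ hf hg)]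
  exact Ideal.add_mem _ h1 h2

theorem ELB1_nM_one : ¬ ELB1_M R (1 : L) := by
  rintro (h | h)
  · exact one_ne_zero h
  · rw [inv_one] at h
    exact h R.one_mem

/-- one plus an element of the maximal ideal is a unit -/
theorem ELB1_one_add {f : L} (hf : f ∈ R) (h : ELB1_M R f) : ¬ ELB1_M R (1 + f) := by
  intro h1
  apply ELB1_nM_one (R := R)
  have h2 : (1 : L) = (1 + f) + (-1) * f := by ring
  rw [h2]
  exact ELB1_M_add (R.add_mem _ _ R.one_mem hf)
    (R.mul_mem _ _ (R.neg_mem _ R.one_mem) hf) h1 (ELB1_M_mul h (R.neg_mem _ R.one_mem))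

/-- A subring which is locally principal at the center of a valuation ring: the valuation ring is
a localization. -/
theorem ELB1_loc (B : Subring L) [IsNoetherianRing B] (hB : ∀ b : B, (b : L) ∈ R)
    (hfrac : ∀ f : L, ∃ a d : B, (d : L) ≠ 0 ∧ f * d = a) (u : B) (hu0 : (u : L) ≠ 0)
    (hu : ELB1_M R (u : L))
    (hloc : ∀ a : B, ELB1_M R (a : L) → ∃ s a' : B, ¬ ELB1_M R (s : L) ∧ s * a = u * a') :
    ∀ f ∈ R, ∃ a d : B, ¬ ELB1_M R (d : L) ∧ f * d = a := by
  have hn1 : ¬ ELB1_M R ((1 : B) : L) := by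
    rw [Subring.coe_one]
    exact ELB1_nM_one
  -- the local saturation of a principal ideal
  let J : B → Ideal B := fun a =>
    { carrier := {b | ∃ s : B, ¬ ELB1_M R (s : L) ∧ ∃ c : B, s * b = c * a}
      zero_mem' := ⟨1, hn1, 0, by ring⟩
      add_mem' := by
        rintro b b' ⟨s, hs, c, h1⟩ ⟨s', hs', c', h2⟩
        refine ⟨s * s', ?_, s' * c + s * c', ?_⟩
        · rw [Subring.coe_mul]
          exact ELB1_nM_mul hs hs'
        · linear_combination s' * h1 + s * h2
      smul_mem' := by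
        rintro r b ⟨s, hs, c, h1⟩
        refine ⟨s, hs, r * c, ?_⟩
        rw [smul_eq_mul]
        linear_combination r * h1 }
  have hJ : ∀ a b : B, b ∈ J a ↔ ∃ s : B, ¬ ELB1_M R (s : L) ∧ ∃ c : B, s * b = c * a :=
    fun a b => Iff.rfl
  have key : ∀ I : Ideal B, ∀ a : B, a ≠ 0 → J a = I → ∃ (n : ℕ) (s a' : B),
      ¬ ELB1_M R (s : L) ∧ ¬ ELB1_M R (a' : L) ∧ s * a = u ^ n * a' := by
    intro I
    induction I using WellFoundedGT.induction with
    | ind I ih =>
      intro a ha haI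
      by_cases hM : ELB1_M R (a : L)
      · obtain ⟨s, a', hs, h1⟩ := hloc a hM
        have hs0 : s ≠ 0 := by
          rintro rfl
          exact (ELB1_nM hs).1 (Subring.coe_zero B)
        have ha' : a' ≠ 0 := by
          rintro rfl
          rw [mul_zero] at h1
          exact (mul_ne_zero hs0 ha) h1
        have hlt : I < J a' := by
          rw [← haI]
          refine lt_of_le_of_ne ?_ ?_
          · intro b hb
            obtain ⟨t, ht, c, h2⟩ := (hJ _ _).mp hb
            refine (hJ _ _).mpr ⟨s * t, ?_, c * u, ?_⟩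
            · rw [Subring.coe_mul]
              exact ELB1_nM_mul hs ht
            · linear_combination s * h2 + c * h1
          · intro heq
            have h3 : a' ∈ J a := by
              rw [heq]
              exact (hJ _ _).mpr ⟨1, hn1, 1, rfl⟩
            obtain ⟨t, ht, c, h2⟩ := (hJ _ _).mp h3
            have h4 : (s * t - c * u) * a' = 0 := by linear_combination s * h2 + c * h1
            have h5 : s * t = c * u := by
              rcases mul_eq_zero.mp h4 with h5 | h5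
              · exact sub_eq_zero.mp h5
              · exact absurd h5 ha'
            have h6 : (s : L) * t = c * u := congrArg Subtype.val h5
            apply ELB1_nM_mul hs ht
            rw [h6]
            exact ELB1_M_mul hu (hB c)
        obtain ⟨n, s', a'', hs', ha'', h2⟩ := ih (J a') hlt a' ha' rfl
        refine ⟨n + 1, s' * s, a'', ?_, ha'', ?_⟩
        · rw [Subring.coe_mul]
          exact ELB1_nM_mul hs' hs
        · linear_combination s' * h1 + u * h2
      · exact ⟨0, 1, a, hn1, hM, by ring⟩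
  intro f hf
  obtain ⟨a, d, hd0, h1⟩ := hfrac f
  by_cases hf0 : f = 0
  · exact ⟨0, 1, hn1, by rw [hf0, zero_mul]; rfl⟩
  have hd : d ≠ 0 := by
    rintro rfl
    exact hd0 (Subring.coe_zero B)
  have ha : a ≠ 0 := by
    rintro rfl
    rw [Subring.coe_zero] at h1
    exact mul_ne_zero hf0 hd0 h1
  obtain ⟨n, s, a', hs, ha', h2⟩ := key _ a ha rfl
  obtain ⟨m, t, d', ht, hd', h3⟩ := key _ d hd rfl
  have h2' : (s : L) * a = u ^ n * a' := by
    have := congrArg Subtype.val h2
    simpa using this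
  have h3' : (t : L) * d = u ^ m * d' := by
    have := congrArg Subtype.val h3
    simpa using this
  obtain ⟨hs0, hsi⟩ := ELB1_nM hs
  obtain ⟨ht0, hti⟩ := ELB1_nM ht
  obtain ⟨ha0, hai⟩ := ELB1_nM ha'
  obtain ⟨hd0', hdi⟩ := ELB1_nM hd'
  have hum : (u : L) ^ m ≠ 0 := pow_ne_zero m hu0
  have h4 : f * (d' * s) * (u : L) ^ m = u ^ n * (a' * t) := by
    linear_combination (s * t : L) * h1 - (f * s : L) * h3' + (t : L) * h2'
  rcases le_or_gt m n with hmn | hmn
  · obtain ⟨j, rfl⟩ := Nat.exists_eq_add_of_le hmn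
    refine ⟨u ^ j * (a' * t), d' * s, ?_, ?_⟩
    · rw [Subring.coe_mul]
      exact ELB1_nM_mul hd' hs
    · have h5 : f * (d' * s) * (u : L) ^ m = (u ^ j * (a' * t)) * (u : L) ^ m := by
        rw [h4]
        ring
      have h6 := mul_right_cancel₀ hum h5
      push_cast
      exact h6
  · exfalso
    obtain ⟨j, rfl⟩ := Nat.exists_eq_add_of_lt hmn
    have hun : (u : L) ^ n ≠ 0 := pow_ne_zero n hu0
    have h5 : (f * (d' * s) * (u : L) ^ j * u) * (u : L) ^ n = (a' * t) * (u : L) ^ n := by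
      rw [mul_comm (a' * t : L), ← h4]
      ring
    have h6 := mul_right_cancel₀ hun h5
    apply ELB1_nM_mul ha' ht
    rw [← h6]
    exact ELB1_M_mul hu (R.mul_mem _ _ (R.mul_mem _ _ hf (R.mul_mem _ _ (hB d') (hB s)))
      (R.pow_mem (hB u) j))

theorem ELB1_der (B : Subring L)
    (h : ∀ f ∈ R, ∃ a d : B, ¬ ELB1_M R (d : L) ∧ f * d = a) (D : Derivation ℤ L L)
    (hD : ∀ b : B, D (b : L) ∈ R) : ∀ f ∈ R, D f ∈ R := by
  intro f hf
  obtain ⟨a, d, hd, h1⟩ := h f hf
  obtain ⟨hd0, hdi⟩ := ELB1_nM hd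
  have h2 := congrArg D h1
  rw [Derivation.leibniz, smul_eq_mul, smul_eq_mul] at h2
  have h3 : D f = (D a - f * D d) * (d : L)⁻¹ := by
    field_simp
    linear_combination h2
  rw [h3]
  exact R.mul_mem _ _ (sub_mem (hD a) (R.mul_mem _ _ hf (hD d))) hdi

/-- derivations and generated subalgebras -/
theorem ELB1_adj {F : Type} [Field F] [Algebra F L] (hF : ∀ c, algebraMap F L c ∈ R) (x y : L)
    (hx : x ∈ R) (hy : y ∈ R) (b : L) (hb : b ∈ Algebra.adjoin F {x, y}) : b ∈ R := by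
  induction hb using Algebra.adjoin_induction with
  | mem z hz =>
    rcases hz with hz | hz
    · rw [hz]; exact hx
    · rw [Set.mem_singleton_iff.mp hz]; exact hy
  | algebraMap c => exact hF c
  | add a b _ _ ha hb => exact R.add_mem _ _ ha hb
  | mul a b _ _ ha hb => exact R.mul_mem _ _ ha hb

theorem ELB1_adjD {F : Type} [Field F] [Algebra F L] (hF : ∀ c, algebraMap F L c ∈ R) (x y : L)
    (hx : x ∈ R) (hy : y ∈ R) (D : Derivation ℤ L L) (hD : ∀ c, D (algebraMap F L c) ∈ R)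
    (hDx : D x ∈ R) (hDy : D y ∈ R) (b : L) (hb : b ∈ Algebra.adjoin F {x, y}) : D b ∈ R := by
  induction hb using Algebra.adjoin_induction with
  | mem z hz =>
    rcases hz with hz | hz
    · rw [hz]; exact hDx
    · rw [Set.mem_singleton_iff.mp hz]; exact hDy
  | algebraMap c => exact hD c
  | add a b _ _ ha hb => rw [map_add]; exact R.add_mem _ _ ha hb
  | mul a b ha' hb' ha hb =>
    rw [Derivation.leibniz, smul_eq_mul, smul_eq_mul]
    exact R.add_mem _ _ (R.mul_mem _ _ (ELB1_adj hF x y hx hy a ha') hb)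
      (R.mul_mem _ _ (ELB1_adj hF x y hx hy b hb') ha)

/-- the two-generator form -/
theorem ELB1_gen {F : Type} [Field F] [Algebra F L] (hF : ∀ c, algebraMap F L c ∈ R) (x y : L)
    (hx : x ∈ R) (hy : y ∈ R) (hgen : adjoin F {x, y} = ⊤)
    (u : L) (huB : u ∈ Algebra.adjoin F {x, y}) (hu0 : u ≠ 0) (hu : ELB1_M R u)
    (hloc : ∀ a ∈ Algebra.adjoin F {x, y}, ELB1_M R a → ∃ s ∈ Algebra.adjoin F {x, y},
      ∃ a' ∈ Algebra.adjoin F {x, y}, ¬ ELB1_M R s ∧ s * a = u * a')
    (D : Derivation ℤ L L) (hD : ∀ c, D (algebraMap F L c) ∈ R)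
    (hDx : D x ∈ R) (hDy : D y ∈ R) : ∀ f ∈ R, D f ∈ R := by
  have hfg : (Algebra.adjoin F ({x, y} : Set L)).FG := by
    classical
    exact ⟨{x, y}, by simp⟩
  have hno : IsNoetherianRing (Algebra.adjoin F ({x, y} : Set L)) := isNoetherianRing_of_fg hfg
  have hno' : IsNoetherianRing (Algebra.adjoin F ({x, y} : Set L)).toSubring := hno
  apply ELB1_der (Algebra.adjoin F ({x, y} : Set L)).toSubring
  · apply ELB1_loc (Algebra.adjoin F ({x, y} : Set L)).toSubring
      (fun b => ELB1_adj hF x y hx hy b b.2) _ ⟨u, huB⟩ hu0 hu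
    · intro a ha
      obtain ⟨s, hs, a', ha', h1, h2⟩ := hloc a a.2 ha
      exact ⟨⟨s, hs⟩, ⟨a', ha'⟩, h1, Subtype.ext h2⟩
    · intro f
      have hf : f ∈ adjoin F ({x, y} : Set L) := by rw [hgen]; trivial
      rw [IntermediateField.mem_adjoin_iff_div] at hf
      obtain ⟨r, hr, s, hs, h1⟩ := hf
      by_cases hs0 : s = 0
      · refine ⟨0, 1, one_ne_zero, ?_⟩
        rw [h1, hs0, div_zero, zero_mul]
        rfl
      · refine ⟨⟨r, hr⟩, ⟨s, hs⟩, hs0, ?_⟩
        rw [h1]
        field_simp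
  · intro b
    exact ELB1_adjD hF x y hx hy D hD hDx hDy b b.2

end loc

section curve

open Polynomial

variable {F L : Type} [Field F] [CharZero F] [Field L] [Algebra F L] {q : F} {x y : L}

/-- the cubic polynomial -/
noncomputable def ELB1_P (q : F) : F[X] := X ^ 3 + X + C q

omit [CharZero F] in
theorem ELB1_P_deg (q : F) : (ELB1_P q).natDegree = 3 ∧ ELB1_P q ≠ 0 := by
  have h : (ELB1_P q).natDegree = 3 := by
    unfold ELB1_P
    compute_degree!
  refine ⟨h, ?_⟩
  intro h0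
  rw [h0] at h
  simp at h

theorem ELB1_P_bez (q : F) (hq : 4 + 27 * q ^ 2 ≠ 0) :
    C (6 / (4 + 27 * q ^ 2)) * ((X ^ 2 - C (3 / 2 * q) * X + C (2 / 3)) * (3 * X ^ 2 + 1) +
      (-3 * X + C (9 / 2 * q)) * ELB1_P q) = 1 := by
  have h1 : (X ^ 2 - C (3 / 2 * q) * X + C (2 / 3)) * (3 * X ^ 2 + 1) +
      (-3 * X + C (9 / 2 * q)) * ELB1_P q = C ((4 + 27 * q ^ 2) / 6) := by
    unfold ELB1_P
    have e1 : (C (3 / 2 * q) : F[X]) = C (1 / 2) * 3 * C q := by
      rw [← C_ofNat, ← C_mul, ← C_mul]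
      congr 1
      ring
    have e2 : (C (9 / 2 * q) : F[X]) = C (1 / 2) * 9 * C q := by
      rw [← C_ofNat, ← C_mul, ← C_mul]
      congr 1
      ring
    have e3 : (C (2 / 3) : F[X]) * 3 = 2 := by
      rw [← C_ofNat, ← C_mul, ← C_ofNat]
      congr 1
      norm_num
    have e4 : (C ((4 + 27 * q ^ 2) / 6) : F[X]) = C (2 / 3) + C (1 / 2) * 9 * C q * C q := by
      rw [← C_ofNat, ← C_mul, ← C_mul, ← C_mul, ← C_add]
      congr 1
      ring
    have e5 : (C (1 / 2) : F[X]) * 2 = 1 := by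
      rw [← C_ofNat, ← C_mul, ← C_1]
      congr 1
      norm_num
    rw [e1, e2, e4]
    linear_combination (X ^ 2) * e3 + 3 * X * C q * e5
  rw [h1, ← C_mul, ← C_1]
  congr 1
  field_simp

omit [CharZero F] in
theorem ELB1_aeval (h : EL F L q x y) : y ^ 2 = aeval x (ELB1_P q) := by
  rw [h.eq]
  unfold ELB1_P
  simp

omit [CharZero F] in
/-- elements of `F[x, y]` -/
theorem ELB1_form (h : EL F L q x y) (b : L) (hb : b ∈ Algebra.adjoin F {x, y}) :
    ∃ a0 a1 : F[X], b = aeval x a0 + aeval x a1 * y := by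
  induction hb using Algebra.adjoin_induction with
  | mem z hz =>
    rcases hz with hz | hz
    · exact ⟨X, 0, by simp [hz]⟩
    · exact ⟨0, 1, by simp [Set.mem_singleton_iff.mp hz]⟩
  | algebraMap c => exact ⟨C c, 0, by simp⟩
  | add a b _ _ ha hb =>
    obtain ⟨a0, a1, h1⟩ := ha
    obtain ⟨b0, b1, h2⟩ := hb
    refine ⟨a0 + b0, a1 + b1, ?_⟩
    rw [h1, h2, map_add, map_add]
    ring
  | mul a b _ _ ha hb =>
    obtain ⟨a0, a1, h1⟩ := ha
    obtain ⟨b0, b1, h2⟩ := hb
    refine ⟨a0 * b0 + a1 * b1 * ELB1_P q, a0 * b1 + a1 * b0, ?_⟩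
    rw [h1, h2]
    simp only [map_add, map_mul]
    rw [← ELB1_aeval h]
    ring

omit [CharZero F] in
theorem ELB1_poly_mem (x y : L) (a : F[X]) : aeval x a ∈ Algebra.adjoin F ({x, y} : Set L) := by
  have h1 : aeval x a ∈ Algebra.adjoin F ({x} : Set L) := aeval_mem_adjoin_singleton F x
  exact Algebra.adjoin_mono (by simp) h1

omit [CharZero F] in
/-- the norm form is anisotropic -/
theorem ELB1_norm (a0 a1 : F[X]) (h : a0 ^ 2 = a1 ^ 2 * ELB1_P q) : a0 = 0 ∧ a1 = 0 := by
  by_cases h1 : a1 = 0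
  · rw [h1] at h
    refine ⟨?_, h1⟩
    rw [zero_pow two_ne_zero, zero_mul] at h
    exact pow_eq_zero_iff two_ne_zero |>.mp h
  · exfalso
    have h2 := congrArg natDegree h
    rw [natDegree_pow, natDegree_mul (pow_ne_zero 2 h1) (ELB1_P_deg q).2, natDegree_pow,
      (ELB1_P_deg q).1] at h2
    omega

/-- a local uniformizer at a finite place -/
theorem ELB1_unif (h : EL F L q x y) (R : ValuationSubring L) (hF : ∀ c, algebraMap F L c ∈ R)
    (hR : R ≠ ⊤) (hx : x ∈ R) (hy : y ∈ R) : ∃ u ∈ Algebra.adjoin F {x, y}, u ≠ 0 ∧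
    ELB1_M R u ∧ ∀ a ∈ Algebra.adjoin F {x, y}, ELB1_M R a → ∃ s ∈ Algebra.adjoin F {x, y},
      ∃ a' ∈ Algebra.adjoin F {x, y}, ¬ ELB1_M R s ∧ s * a = u * a' := by
  have hmem : ∀ b ∈ Algebra.adjoin F ({x, y} : Set L), b ∈ R := ELB1_adj hF x y hx hy
  have hxB : ∀ a : F[X], aeval x a ∈ Algebra.adjoin F ({x, y} : Set L) := ELB1_poly_mem x y
  have hyB : y ∈ Algebra.adjoin F ({x, y} : Set L) := Algebra.subset_adjoin (by simp)
  have hinj : ∀ a : F[X], aeval x a = 0 → a = 0 := by
    intro a ha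
    exact (transcendental_iff.mp h.tr) a ha
  -- the prime ideal below
  let I : Ideal F[X] :=
    { carrier := {a | ELB1_M R (aeval x a)}
      zero_mem' := by
        left
        exact map_zero _
      add_mem' := by
        intro a b ha hb
        change ELB1_M R (aeval x (a + b))
        rw [map_add]
        exact ELB1_M_add (hmem _ (hxB a)) (hmem _ (hxB b)) ha hb
      smul_mem' := by
        intro c a ha
        change ELB1_M R (aeval x (c • a))
        rw [smul_eq_mul, map_mul]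
        exact ELB1_M_mul ha (hmem _ (hxB c)) }
  have hI : ∀ a, a ∈ I ↔ ELB1_M R (aeval x a) := fun a => Iff.rfl
  have hone : (1 : F[X]) ∉ I := by
    intro h1
    rw [hI, map_one] at h1
    exact ELB1_nM_one h1
  have hprime : ∀ a b, a * b ∈ I → a ∈ I ∨ b ∈ I := by
    intro a b hab
    by_contra hcon
    push Not at hcon
    rw [hI, hI] at hcon
    rw [hI, map_mul] at hab
    exact ELB1_nM_mul hcon.1 hcon.2 hab
  have hne : ∃ a ∈ I, a ≠ 0 := by
    obtain ⟨f, hf⟩ : ∃ f : L, f ∉ R := by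
      by_contra hcon
      push Not at hcon
      apply hR
      ext f
      exact ⟨fun _ => trivial, fun _ => hcon f⟩
    have hf' : f ∈ adjoin F ({x, y} : Set L) := by rw [h.gen]; trivial
    rw [IntermediateField.mem_adjoin_iff_div] at hf'
    obtain ⟨a, ha, d, hd, h1⟩ := hf'
    have hd0 : d ≠ 0 := by
      rintro rfl
      rw [div_zero] at h1
      apply hf
      rw [h1]
      exact R.zero_mem
    have hdM : ELB1_M R d := by
      by_contra hdM
      obtain ⟨-, h2⟩ := ELB1_nM hdM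
      apply hf
      rw [h1, div_eq_mul_inv]
      exact R.mul_mem _ _ (hmem a ha) h2
    obtain ⟨d0, d1, h3⟩ := ELB1_form h d hd
    refine ⟨d0 ^ 2 - d1 ^ 2 * ELB1_P q, ?_, ?_⟩
    · rw [hI]
      have h4 : aeval x (d0 ^ 2 - d1 ^ 2 * ELB1_P q) = (aeval x d0 - aeval x d1 * y) * d := by
        rw [h3]
        simp only [map_sub, map_mul, map_pow]
        rw [← ELB1_aeval h]
        ring
      rw [h4]
      exact ELB1_M_mul hdM (sub_mem (hmem _ (hxB d0)) (R.mul_mem _ _ (hmem _ (hxB d1)) hy))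
    · intro h4
      obtain ⟨h5, h6⟩ := ELB1_norm (q := q) d0 d1 (sub_eq_zero.mp h4)
      apply hd0
      rw [h3, h5, h6]
      simp
  have hprinc : I.IsPrincipal := IsPrincipalIdealRing.principal I
  obtain ⟨π, hπ⟩ := hprinc
  have hπI : π ∈ I := by
    rw [hπ]
    exact Submodule.mem_span_singleton_self π
  have hdvd : ∀ a, a ∈ I → π ∣ a := by
    intro a ha
    rw [hπ] at ha
    exact Ideal.mem_span_singleton.mp ha
  have hπ0 : π ≠ 0 := by
    rintro rfl
    obtain ⟨a, ha, ha0⟩ := hne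
    exact ha0 (zero_dvd_iff.mp (hdvd a ha))
  have hI2 : ∀ a, π ∣ a → a ∈ I := by
    rintro a ⟨c, rfl⟩
    exact I.mul_mem_right c hπI
  have hπ1 : ¬ π ∣ 1 := fun h1 => hone (hI2 _ h1)
  have two_ne : ¬ ELB1_M R (2 : L) := by
    have h2 : ((2 : F)) ≠ 0 := two_ne_zero
    rintro (h1 | h1)
    · have : algebraMap F L 2 = 0 := by rw [map_ofNat]; exact h1
      exact h2 ((map_eq_zero _).mp this)
    · apply h1
      have : (2 : L)⁻¹ = algebraMap F L (2⁻¹) := by rw [map_inv₀, map_ofNat]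
      rw [this]
      exact hF _
  obtain ⟨h2ne, h2inv⟩ := ELB1_nM two_ne
  by_cases hP : ELB1_P q ∈ I
  · -- the two-torsion points
    obtain ⟨P1, hP1⟩ := hdvd _ hP
    have hP1n : P1 ∉ I := by
      intro h1
      obtain ⟨P2, hP2⟩ := hdvd _ h1
      apply hπ1
      rw [← ELB1_P_bez q h.disc]
      apply Dvd.dvd.mul_left
      apply dvd_add
      · apply Dvd.dvd.mul_left
        have h3 : (3 * X ^ 2 + 1 : F[X]) = derivative (ELB1_P q) := by
          unfold ELB1_P
          simp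
          rw [map_ofNat]
          norm_num
        rw [h3, hP1, hP2]
        rw [derivative_mul, derivative_mul]
        refine ⟨derivative π * P2 + (derivative π * P2 + π * derivative P2), ?_⟩
        ring
      · apply Dvd.dvd.mul_left
        exact hdvd _ hP
    have hyM : ELB1_M R y := by
      by_contra hyM
      have h1 := ELB1_nM_mul hyM hyM
      apply h1
      rw [hI, ← ELB1_aeval h, pow_two] at hP
      exact hP
    have hy0 : y ≠ 0 := by
      intro h1
      have h2 := ELB1_aeval h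
      rw [h1, zero_pow two_ne_zero] at h2
      exact (ELB1_P_deg q).2 (hinj _ h2.symm)
    refine ⟨y, hyB, hy0, hyM, ?_⟩
    intro a ha haM
    obtain ⟨a0, a1, h1⟩ := ELB1_form h a ha
    have h2 : a0 ∈ I := by
      rw [hI]
      have h3 : aeval x a0 = a + (-aeval x a1) * y := by rw [h1]; ring
      rw [h3]
      exact ELB1_M_add (hmem a ha) (R.mul_mem _ _ (R.neg_mem _ (hmem _ (hxB a1))) hy) haM
        (ELB1_M_mul hyM (R.neg_mem _ (hmem _ (hxB a1))))
    obtain ⟨b0, hb0⟩ := hdvd _ h2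
    refine ⟨aeval x P1, hxB _, y * aeval x b0 + aeval x a1 * aeval x P1, ?_, hP1n, ?_⟩
    · exact Subalgebra.add_mem _ (Subalgebra.mul_mem _ hyB (hxB _))
        (Subalgebra.mul_mem _ (hxB _) (hxB _))
    · have h3 := ELB1_aeval h
      rw [hP1, map_mul] at h3
      rw [h1, hb0, map_mul]
      linear_combination (-aeval x b0 : L) * h3
  · -- the other points
    have hyM : ¬ ELB1_M R y := by
      intro hyM
      apply hP
      rw [hI, ← ELB1_aeval h, pow_two]
      exact ELB1_M_mul hyM hy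
    obtain ⟨hy0, hyi⟩ := ELB1_nM hyM
    refine ⟨aeval x π, hxB _, fun h1 => hπ0 (hinj _ h1), (hI _).mp hπI, ?_⟩
    intro a ha haM
    obtain ⟨a0, a1, h1⟩ := ELB1_form h a ha
    by_cases hbar : ELB1_M R (aeval x a0 - aeval x a1 * y)
    · have hmb : aeval x a0 - aeval x a1 * y ∈ R :=
        sub_mem (hmem _ (hxB _)) (R.mul_mem _ _ (hmem _ (hxB _)) hy)
      have h2 : a0 ∈ I := by
        rw [hI]
        have h3 : aeval x a0 = (2 : L)⁻¹ * (a + (aeval x a0 - aeval x a1 * y)) := by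
          rw [h1]
          field_simp
          ring
        rw [h3]
        exact ELB1_M_mul (ELB1_M_add (hmem a ha) hmb haM hbar) h2inv
      have h3 : a1 ∈ I := by
        rw [hI]
        have h3 : aeval x a1 = y⁻¹ * (a + (-1) * aeval x a0) := by
          rw [h1]
          field_simp
          ring
        rw [h3]
        have hn : (-1 : L) ∈ R := R.neg_mem _ R.one_mem
        exact ELB1_M_mul (ELB1_M_add (hmem a ha) (R.mul_mem _ _ hn (hmem _ (hxB _))) haM
          (ELB1_M_mul ((hI _).mp h2) hn)) hyi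
      obtain ⟨b0, hb0⟩ := hdvd _ h2
      obtain ⟨b1, hb1⟩ := hdvd _ h3
      refine ⟨1, Subalgebra.one_mem _, aeval x b0 + aeval x b1 * y, ?_, ELB1_nM_one, ?_⟩
      · exact Subalgebra.add_mem _ (hxB _) (Subalgebra.mul_mem _ (hxB _) hyB)
      · rw [h1, hb0, hb1, map_mul, map_mul]
        ring
    · have h2 : a0 ^ 2 - a1 ^ 2 * ELB1_P q ∈ I := by
        rw [hI]
        have h4 : aeval x (a0 ^ 2 - a1 ^ 2 * ELB1_P q) = (aeval x a0 - aeval x a1 * y) * a := by
          rw [h1]
          simp only [map_sub, map_mul, map_pow]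
          rw [← ELB1_aeval h]
          ring
        rw [h4]
        exact ELB1_M_mul haM (sub_mem (hmem _ (hxB _)) (R.mul_mem _ _ (hmem _ (hxB _)) hy))
      obtain ⟨c, hc⟩ := hdvd _ h2
      refine ⟨aeval x a0 - aeval x a1 * y, ?_, aeval x c, hxB _, hbar, ?_⟩
      · exact Subalgebra.sub_mem _ (hxB _) (Subalgebra.mul_mem _ (hxB _) hyB)
      · rw [← map_mul, ← hc, h1]
        simp only [map_sub, map_mul, map_pow]
        rw [← ELB1_aeval h]
        ring

end curve

theorem st_ELB1 : ST_ELB1 := by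
  intro F L _ _ _ _ q x y h δ0 Df Ds hD R hF hR hx
  have hy : y ∈ R := by
    have h1 : IsIntegral R y := by
      refine ⟨Polynomial.X ^ 2 - Polynomial.C ⟨x ^ 3 + x + algebraMap F L q,
        R.add_mem _ _ (R.add_mem _ _ (R.pow_mem hx 3) hx) (hF q)⟩,
        Polynomial.monic_X_pow_sub_C _ two_ne_zero, ?_⟩
      simp only [Polynomial.eval₂_sub, Polynomial.eval₂_pow, Polynomial.eval₂_X,
        Polynomial.eval₂_C]
      rw [h.eq]
      exact sub_self _
    obtain ⟨z, hz⟩ := IsIntegrallyClosed.isIntegral_iff.mp h1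
    rw [← hz]
    exact z.2
  obtain ⟨u, hu, hu0, huM, hloc⟩ := ELB1_unif h R hF hR hx hy
  have hthree : (3 : L) ∈ R := by
    have := hF 3
    rwa [map_ofNat] at this
  have htwo : (2 : L) ∈ R := by
    have := hF 2
    rwa [map_ofNat] at this
  constructor
  · apply ELB1_gen hF x y hx hy h.gen u hu hu0 huM hloc Df
    · intro c
      rw [hD.Df0]
      exact R.zero_mem
    · rw [hD.Dfx]
      exact R.mul_mem _ _ htwo hy
    · rw [hD.Dfy]
      exact R.add_mem _ _ (R.mul_mem _ _ hthree (R.pow_mem hx 2)) R.one_mem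
  · apply ELB1_gen hF x y hx hy h.gen u hu hu0 huM hloc Ds
    · intro c
      rw [hD.Ds0]
      exact hF _
    · rw [hD.Dsx]
      exact R.mul_mem _ _ (R.neg_mem _ (hF _)) (R.add_mem _ _ (sub_mem (R.pow_mem hx 2)
        (R.mul_mem _ _ (hF _) hx)) (hF _))
    · rw [hD.Dsy]
      exact R.mul_mem _ _ (R.mul_mem _ _ (hF _) (R.add_mem _ _ (R.mul_mem _ _
        (R.neg_mem _ hthree) hx) (hF _))) hy

end Pool.Agent.Helper8.SPV
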