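import Pool.Agent.Helper34.SPV.ELB1

/-! # Derivations of an elliptic function field at infinity -/

set_option autoImplicit false

namespace Pool.Agent.Helper8.SPV

open IntermediateField (adjoin)

/-- elements of `F[Z, V]` -/
theorem ELB2_form {F L : Type} [Field F] [Field L] [Algebra F L] (Z V : L) (b : L)
    (hb : b ∈ Algebra.adjoin F {Z, V}) :
    ∃ c : F, ∃ b1 ∈ Algebra.adjoin F {Z, V}, ∃ b2 ∈ Algebra.adjoin F {Z, V},
      b = algebraMap F L c + Z * b1 + V * b2 := by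
  have hZ : Z ∈ Algebra.adjoin F ({Z, V} : Set L) := Algebra.subset_adjoin (by simp)
  have hV : V ∈ Algebra.adjoin F ({Z, V} : Set L) := Algebra.subset_adjoin (by simp)
  induction hb using Algebra.adjoin_induction with
  | mem z hz =>
    rcases hz with hz | hz
    · exact ⟨0, 1, Subalgebra.one_mem _, 0, Subalgebra.zero_mem _, by simp [hz]⟩
    · exact ⟨0, 0, Subalgebra.zero_mem _, 1, Subalgebra.one_mem _,
        by simp [Set.mem_singleton_iff.mp hz]⟩
  | algebraMap c => exact ⟨c, 0, Subalgebra.zero_mem _, 0, Subalgebra.zero_mem _, by simp⟩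
  | add a b _ _ ha hb =>
    obtain ⟨c, a1, h1, a2, h2, h3⟩ := ha
    obtain ⟨c', b1, h1', b2, h2', h3'⟩ := hb
    refine ⟨c + c', a1 + b1, Subalgebra.add_mem _ h1 h1', a2 + b2, Subalgebra.add_mem _ h2 h2', ?_⟩
    rw [h3, h3', map_add]
    ring
  | mul a b ha' hb' ha hb =>
    obtain ⟨c, a1, h1, a2, h2, h3⟩ := ha
    obtain ⟨c', b1, h1', b2, h2', h3'⟩ := hb
    have hc : algebraMap F L c ∈ Algebra.adjoin F ({Z, V} : Set L) := Subalgebra.algebraMap_mem _ c
    refine ⟨c * c', algebraMap F L c * b1 + a1 * b,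
      Subalgebra.add_mem _ (Subalgebra.mul_mem _ hc h1') (Subalgebra.mul_mem _ h1 hb'),
      algebraMap F L c * b2 + a2 * b,
      Subalgebra.add_mem _ (Subalgebra.mul_mem _ hc h2') (Subalgebra.mul_mem _ h2 hb'), ?_⟩
    rw [map_mul]
    calc a * b = (algebraMap F L c + Z * a1 + V * a2) * b := by rw [← h3]
      _ = algebraMap F L c * b + Z * (a1 * b) + V * (a2 * b) := by ring
      _ = algebraMap F L c * (algebraMap F L c' + Z * b1 + V * b2) + Z * (a1 * b) +
          V * (a2 * b) := by rw [← h3']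
      _ = _ := by ring

theorem ELB2_M_of_sq {L : Type} [Field L] {R : ValuationSubring L} {f : L}
    (h : ELB1_M R (f ^ 2)) : ELB1_M R f := by
  by_contra h1
  rw [pow_two] at h
  exact ELB1_nM_mul h1 h1 h

theorem ELB2_mem {L : Type} [Field L] {R : ValuationSubring L} {f : L}
    (h : ELB1_M R f) : f ∈ R := by
  rcases h with h | h
  · rw [h]
    exact R.zero_mem
  · exact (R.mem_or_inv_mem f).resolve_right h

theorem st_ELB2 : ST_ELB2 := by
  intro F L _ _ _ _ q x y h δ0 Df Ds hD R hF hR hx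
  have hq : algebraMap F L q ∈ R := hF q
  have hx0 : x ≠ 0 := by
    rintro rfl
    exact hx R.zero_mem
  have hxi : ELB1_M R x⁻¹ := Or.inr (by rwa [inv_inv])
  have hxiR : x⁻¹ ∈ R := ELB2_mem hxi
  have heq := h.eq
  -- the unit `ε = y ^ 2 / x ^ 3`
  have hw : ELB1_M R (x⁻¹ * x⁻¹ + algebraMap F L q * (x⁻¹ * x⁻¹ * x⁻¹)) := by
    have h1 : x⁻¹ * x⁻¹ + algebraMap F L q * (x⁻¹ * x⁻¹ * x⁻¹) =
        (x⁻¹ + algebraMap F L q * (x⁻¹ * x⁻¹)) * x⁻¹ := by ring
    rw [h1]
    exact ELB1_M_mul hxi (R.add_mem _ _ hxiR (R.mul_mem _ _ hq (R.mul_mem _ _ hxiR hxiR)))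
  have he := ELB1_one_add (ELB2_mem hw) hw
  obtain ⟨he0, hei⟩ := ELB1_nM he
  set ε := 1 + (x⁻¹ * x⁻¹ + algebraMap F L q * (x⁻¹ * x⁻¹ * x⁻¹)) with hε
  have hyε : y ^ 2 = x ^ 3 * ε := by
    rw [heq, hε]
    field_simp
    ring
  have hy0 : y ≠ 0 := by
    rintro rfl
    rw [zero_pow two_ne_zero] at hyε
    exact mul_ne_zero (pow_ne_zero 3 hx0) he0 hyε.symm
  have hZM : ELB1_M R (x / y) := by
    apply ELB2_M_of_sq
    have h1 : (x / y) ^ 2 = ε⁻¹ * x⁻¹ := by
      rw [div_pow, hyε]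
      field_simp
    rw [h1]
    exact ELB1_M_mul hxi hei
  have hVM : ELB1_M R (1 / y) := by
    apply ELB2_M_of_sq
    have h1 : (1 / y) ^ 2 = (ε⁻¹ * x⁻¹ * x⁻¹) * x⁻¹ := by
      rw [div_pow, hyε]
      field_simp
    rw [h1]
    exact ELB1_M_mul hxi (R.mul_mem _ _ (R.mul_mem _ _ hei hxiR) hxiR)
  have hZR := ELB2_mem hZM
  have hVR := ELB2_mem hVM
  have hZ0 : x / y ≠ 0 := div_ne_zero hx0 hy0
  have hZd : (x / y) * y = x := by field_simp
  have hVd : (1 / y) * y = 1 := by field_simp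
  set Z := x / y with hZ
  set V := 1 / y with hV
  have hrel : V * (1 - Z * V - algebraMap F L q * V ^ 2) = Z ^ 3 := by
    rw [hV, hZ]
    field_simp
    linear_combination heq
  have hn1 : (-1 : L) ∈ R := R.neg_mem _ R.one_mem
  -- elements of the form 1 + M
  have hone : ∀ m n : L, m ∈ R → n ∈ R → ¬ ELB1_M R (1 - m * Z * V - n * V ^ 2) := by
    intro m n hm hn
    have h1 : 1 - m * Z * V - n * V ^ 2 = 1 + (-1 * (m * Z + n * V)) * V := by ring
    rw [h1]
    have h2 : -1 * (m * Z + n * V) ∈ R :=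
      R.mul_mem _ _ hn1 (R.add_mem _ _ (R.mul_mem _ _ hm hZR) (R.mul_mem _ _ hn hVR))
    exact ELB1_one_add (R.mul_mem _ _ h2 hVR) (ELB1_M_mul hVM h2)
  have htwo : (2 : L) ∈ R := by
    have := hF 2
    rwa [map_ofNat] at this
  have hthree : (3 : L) ∈ R := by
    have := hF 3
    rwa [map_ofNat] at this
  have hs := hone 1 (algebraMap F L q) R.one_mem hq
  rw [one_mul] at hs
  have hu := hone 2 (3 * algebraMap F L q) htwo (R.mul_mem _ _ hthree hq)
  obtain ⟨hu0, hui⟩ := ELB1_nM hu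
  have hZB : Z ∈ Algebra.adjoin F ({Z, V} : Set L) := Algebra.subset_adjoin (by simp)
  have hVB : V ∈ Algebra.adjoin F ({Z, V} : Set L) := Algebra.subset_adjoin (by simp)
  have hgen : adjoin F ({Z, V} : Set L) = ⊤ := by
    rw [eq_top_iff, ← h.gen, IntermediateField.adjoin_le_iff]
    have h1 : Z ∈ adjoin F ({Z, V} : Set L) := IntermediateField.subset_adjoin _ _ (by simp)
    have h2 : V ∈ adjoin F ({Z, V} : Set L) := IntermediateField.subset_adjoin _ _ (by simp)
    rintro z (hz | hz)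
    · rw [hz]
      have h3 : x = Z / V := by
        rw [hZ, hV]
        field_simp
      rw [h3]
      exact div_mem h1 h2
    · rw [Set.mem_singleton_iff.mp hz]
      have h3 : y = V⁻¹ := by
        rw [hV]
        field_simp
      rw [h3]
      exact inv_mem h2
  have hloc : ∀ a ∈ Algebra.adjoin F ({Z, V} : Set L), ELB1_M R a →
      ∃ s ∈ Algebra.adjoin F ({Z, V} : Set L),
      ∃ a' ∈ Algebra.adjoin F ({Z, V} : Set L), ¬ ELB1_M R s ∧ s * a = Z * a' := by
    intro a ha haM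
    obtain ⟨c, b1, h1, b2, h2, h3⟩ := ELB2_form Z V a ha
    have hmem := ELB1_adj hF Z V hZR hVR
    have hc : c = 0 := by
      by_contra hc
      have h4 : algebraMap F L c = a + (-1 * b1) * Z + (-1 * b2) * V := by rw [h3]; ring
      have m1 : -1 * b1 ∈ R := R.mul_mem _ _ hn1 (hmem _ h1)
      have m2 : -1 * b2 ∈ R := R.mul_mem _ _ hn1 (hmem _ h2)
      have h5 : ELB1_M R (algebraMap F L c) := by
        rw [h4]
        exact ELB1_M_add (R.add_mem _ _ (hmem a ha) (R.mul_mem _ _ m1 hZR))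
          (R.mul_mem _ _ m2 hVR)
          (ELB1_M_add (hmem a ha) (R.mul_mem _ _ m1 hZR) haM (ELB1_M_mul hZM m1))
          (ELB1_M_mul hVM m2)
      rcases h5 with h5 | h5
      · exact hc ((map_eq_zero _).mp h5)
      · apply h5
        rw [← map_inv₀]
        exact hF _
    have hcq : algebraMap F L q ∈ Algebra.adjoin F ({Z, V} : Set L) :=
      Subalgebra.algebraMap_mem _ q
    have hsB : 1 - Z * V - algebraMap F L q * V ^ 2 ∈ Algebra.adjoin F ({Z, V} : Set L) :=
      Subalgebra.sub_mem _ (Subalgebra.sub_mem _ (Subalgebra.one_mem _)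
        (Subalgebra.mul_mem _ hZB hVB)) (Subalgebra.mul_mem _ hcq (Subalgebra.pow_mem _ hVB 2))
    refine ⟨_, hsB, (1 - Z * V - algebraMap F L q * V ^ 2) * b1 + Z ^ 2 * b2, ?_, hs, ?_⟩
    · exact Subalgebra.add_mem _ (Subalgebra.mul_mem _ hsB h1)
        (Subalgebra.mul_mem _ (Subalgebra.pow_mem _ hZB 2) h2)
    · rw [h3, hc, map_zero]
      linear_combination b2 * hrel
  have hDy : ∀ D : Derivation ℤ L L, D Z = (D x * y - x * D y) / y ^ 2 ∧ D V = -D y / y ^ 2 := by
    intro D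
    have e1 := congrArg D hZd
    have e2 := congrArg D hVd
    rw [Derivation.leibniz, smul_eq_mul, smul_eq_mul] at e1 e2
    rw [Derivation.map_one_eq_zero] at e2
    constructor
    · field_simp
      linear_combination y * e1 - (D y) * hZd
    · field_simp
      linear_combination y * e2 - (D y) * hVd
  have hDfZ : Df Z = -(1 - 2 * Z * V - 3 * algebraMap F L q * V ^ 2) := by
    rw [(hDy Df).1, hD.Dfx, hD.Dfy, hZ, hV]
    field_simp
    linear_combination 3 * heq
  have hDfV : Df V = -(3 * Z ^ 2 + V ^ 2) := by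
    rw [(hDy Df).2, hD.Dfy, hZ, hV]
    field_simp
  have hDfZR : Df Z ∈ R := by
    rw [hDfZ]
    apply R.neg_mem
    exact sub_mem (sub_mem R.one_mem (R.mul_mem _ _ (R.mul_mem _ _ htwo hZR) hVR))
      (R.mul_mem _ _ (R.mul_mem _ _ hthree hq) (R.pow_mem hVR 2))
  have hDfVR : Df V ∈ R := by
    rw [hDfV]
    apply R.neg_mem
    exact R.add_mem _ _ (R.mul_mem _ _ hthree (R.pow_mem hZR 2)) (R.pow_mem hVR 2)
  have hDfZ0 : Df Z ≠ 0 := by
    rw [hDfZ]
    exact neg_ne_zero.mpr hu0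
  refine ⟨hDfZ0, ?_, ?_⟩
  · apply ELB1_gen hF Z V hZR hVR hgen Z hZB hZ0 hZM hloc Df
    · intro c
      rw [hD.Df0]
      exact R.zero_mem
    · exact hDfZR
    · exact hDfVR
  · set c0 := Ds Z / Df Z with hc0
    have hval : ∀ f, (Ds - c0 • Df : Derivation ℤ L L) f = Ds f - c0 * Df f := fun f => rfl
    have hDZ : (Ds - c0 • Df : Derivation ℤ L L) Z = 0 := by
      rw [hval, hc0]
      field_simp
      ring
    have hDF : ∀ c, (Ds - c0 • Df : Derivation ℤ L L) (algebraMap F L c) =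
        algebraMap F L (δ0 c) := by
      intro c
      rw [hval, hD.Ds0, hD.Df0, mul_zero, sub_zero]
    have hDV : (Ds - c0 • Df : Derivation ℤ L L) V =
        algebraMap F L (δ0 q) * V ^ 3 * (1 - 2 * Z * V - 3 * algebraMap F L q * V ^ 2)⁻¹ := by
      have e1 := congrArg (Ds - c0 • Df : Derivation ℤ L L) hrel
      simp only [Derivation.leibniz, Derivation.leibniz_pow, map_sub,
        Derivation.map_one_eq_zero, hDZ, hDF, smul_eq_mul, nsmul_eq_mul] at e1
      rw [eq_mul_inv_iff_mul_eq₀ hu0]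
      push_cast at e1
      linear_combination e1
    have hmain := ELB1_gen hF Z V hZR hVR hgen Z hZB hZ0 hZM hloc (Ds - c0 • Df)
      (fun c => by rw [hDF]; exact hF _) (by rw [hDZ]; exact R.zero_mem)
      (by
        rw [hDV]
        exact R.mul_mem _ _ (R.mul_mem _ _ (hF _) (R.pow_mem hVR 3)) hui)
    intro f hf
    exact hmain f hf

end Pool.Agent.Helper8.SPV
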